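import Pool.Agent.H8.TD.Targets

set_option autoImplicit false

open MvPolynomial
open Pool.Agent.H12.ZD (pmap v O Res DenseOrbit NoInv)
open Pool.Agent.H18.HIT
open Pool.Agent.H8.ZA (HFam Const NA sz)
open Pool.Agent.H8.TD

namespace Pool.Agent.H50.TD

theorem pf_HMG : T_HMG := by
  intro k _ p hp
  classical
  have hdeg : ∀ m ∈ p.support, ∑ i : Fin 3, m i ≤ p.totalDegree := by
    intro m hm
    have h1 := le_totalDegree hm
    rwa [Finsupp.sum_fintype _ _ (fun _ => rfl)] at h1
  refine ⟨∑ m ∈ p.support, C (coeff m p) * X 0 ^ (p.totalDegree - ∑ i : Fin 3, m i) *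
    ∏ i : Fin 3, X i.succ ^ m i, p.totalDegree, ?_, ?_⟩
  · intro h0
    apply hp
    have h1 : (dh : Po 4 k →ₐ[k] Po 3 k) (∑ m ∈ p.support, C (coeff m p) *
        X 0 ^ (p.totalDegree - ∑ i : Fin 3, m i) * ∏ i : Fin 3, X i.succ ^ m i) = p := by
      rw [map_sum]
      conv_rhs => rw [p.as_sum]
      apply Finset.sum_congr rfl
      intro m _
      have e1 : (dh : Po 4 k →ₐ[k] Po 3 k) (X 0) = 1 := by
        unfold dh
        rw [aeval_X]
        rfl
      have e2 : ∀ i : Fin 3, (dh : Po 4 k →ₐ[k] Po 3 k) (X i.succ) = X i := by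
        intro i
        unfold dh
        rw [aeval_X]
        rfl
      have e3 : (dh : Po 4 k →ₐ[k] Po 3 k) (C (coeff m p)) = C (coeff m p) :=
        AlgHom.commutes dh (coeff m p)
      have e4 : ∏ i : Fin 3, (dh : Po 4 k →ₐ[k] Po 3 k) ((X i.succ : Po 4 k) ^ m i) =
          ∏ i : Fin 3, (X i : Po 3 k) ^ m i := by
        apply Finset.prod_congr rfl
        intro i _
        rw [map_pow, e2]
      rw [map_mul, map_mul, map_pow, map_prod, e1, e3, e4, one_pow, mul_one, monomial_eq,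
        Finsupp.prod_fintype _ _ (fun _ => pow_zero _)]
    rw [← h1, h0, map_zero]
  · intro y hy
    rw [map_sum, eval_eq', Finset.mul_sum]
    apply Finset.sum_congr rfl
    intro m hm
    rw [map_mul, map_mul, map_pow, map_prod, eval_C, eval_X]
    have e1 : ∏ i : Fin 3, (eval y) ((X i.succ : Po 4 k) ^ m i) = ∏ i : Fin 3, y i.succ ^ m i := by
      apply Finset.prod_congr rfl
      intro i _
      rw [map_pow, eval_X]
    have e2 : ∏ i : Fin 3, aff y i ^ m i = (∏ i : Fin 3, y i.succ ^ m i) /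
        y 0 ^ (∑ i : Fin 3, m i) := by
      rw [← Finset.prod_pow_eq_pow_sum, ← Finset.prod_div_distrib]
      apply Finset.prod_congr rfl
      intro i _
      exact div_pow _ _ _
    rw [e1, e2]
    have e3 : y 0 ^ p.totalDegree = y 0 ^ (p.totalDegree - ∑ i : Fin 3, m i) *
        y 0 ^ (∑ i : Fin 3, m i) := by
      rw [← pow_add, Nat.sub_add_cancel (hdeg m hm)]
    rw [e3]
    have h4 : y 0 ^ (∑ i : Fin 3, m i) ≠ 0 := pow_ne_zero _ hy
    field_simp

end Pool.Agent.H50.TD
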