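import Pool.Agent.H8.TD.Targets

set_option autoImplicit false

open MvPolynomial
open Pool.Agent.H12.ZD (pmap v O Res DenseOrbit NoInv)
open Pool.Agent.H18.HIT
open Pool.Agent.H8.ZA (HFam Const NA sz)
open Pool.Agent.H8.TD

namespace Pool.Agent.H50.TD

open scoped IntermediateField.algebraAdjoinAdjoin in
/-- the transcendence degree of a field generated by a set -/
theorem lav_trdeg_adjoin {F E : Type} [Field F] [Field E] [Algebra F E] (s : Set E) :
    Algebra.trdeg F (IntermediateField.adjoin F s) = Algebra.trdeg F (Algebra.adjoin F s) := by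
  rw [← trdeg_add_eq F (Algebra.adjoin F s) (A := IntermediateField.adjoin F s),
        (trdeg_eq_zero_iff (R := Algebra.adjoin F s)
          (A := IntermediateField.adjoin F s)).2 inferInstance, add_zero]

theorem lav_trdeg_simple {F E : Type} [Field F] [Field E] [Algebra F E] (τ : E) :
    Algebra.trdeg F (IntermediateField.adjoin F {τ}) ≤ 1 := by
  rw [lav_trdeg_adjoin, Algebra.adjoin_singleton_eq_range_aeval,
    ← Polynomial.trdeg_of_isDomain (R := F)]
  exact trdeg_le_of_surjective (Polynomial.aeval (R := F) τ).rangeRestrict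
    (AlgHom.rangeRestrict_surjective _)

theorem lav_trdeg_union {k Ω : Type} [Field k] [Field Ω] [Algebra k Ω] (S T : Set Ω) :
    Algebra.trdeg k (IntermediateField.adjoin k (S ∪ T)) =
      Algebra.trdeg k (IntermediateField.adjoin k S) +
        Algebra.trdeg (IntermediateField.adjoin k S)
          (IntermediateField.adjoin (IntermediateField.adjoin k S) T) := by
  rw [← IntermediateField.adjoin_adjoin_left]
  exact (trdeg_add_eq k (IntermediateField.adjoin k S)
    (A := IntermediateField.adjoin (IntermediateField.adjoin k S) T)).symm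

/-- restriction to the generic line through `y` -/
noncomputable def lnp {k : Type} [Field k] (y : Fin 4 → k) : Po 4 k →ₐ[k] Polynomial (Po 4 k) :=
  aeval (fun j => Polynomial.C (C (y j)) + Polynomial.X * Polynomial.C (X j))

theorem eval₂_lnp {k B : Type} [Field k] [CommRing B] [Algebra k B] (y : Fin 4 → k)
    (φ : Po 4 k →ₐ[k] B) (τ : B) (P : Po 4 k) :
    Polynomial.eval₂ φ.toRingHom τ (lnp y P) =
      aeval (fun j => algebraMap k B (y j) + τ * φ (X j)) P := by
  have h : (Polynomial.eval₂RingHom φ.toRingHom τ).comp (lnp y).toRingHom =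
      (aeval (fun j => algebraMap k B (y j) + τ * φ (X j)) : Po 4 k →ₐ[k] B).toRingHom := by
    apply MvPolynomial.ringHom_ext
    · intro a
      have e1 : lnp y (C a) = Polynomial.C (C a) := AlgHom.commutes (lnp y) a
      have e2 : (aeval (fun j => algebraMap k B (y j) + τ * φ (X j)) : Po 4 k →ₐ[k] B) (C a) =
          algebraMap k B a := AlgHom.commutes _ a
      have e3 : φ (C a) = algebraMap k B a := AlgHom.commutes φ a
      show Polynomial.eval₂ φ.toRingHom τ (lnp y (C a)) = aeval _ (C a)
      rw [e1, e2, Polynomial.eval₂_C, ← e3]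
      rfl
    · intro i
      show Polynomial.eval₂ φ.toRingHom τ (lnp y (X i)) = aeval _ (X i)
      have e3 : φ (C (y i)) = algebraMap k B (y i) := AlgHom.commutes φ (y i)
      rw [lnp, aeval_X, aeval_X, Polynomial.eval₂_add, Polynomial.eval₂_mul, Polynomial.eval₂_C,
        Polynomial.eval₂_C, Polynomial.eval₂_X, ← e3]
      rfl
  exact RingHom.congr_fun h P

/-- a linear combination without common factor with `P` -/
theorem exists_rel {k : Type} [Field k] [Infinite k] {M : ℕ} (G : Fin M → Po 4 k) (hG : Cop G)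
    (P : Po 4 k) (hP : P ≠ 0) : ∃ s : Fin M → k, IsRelPrime P (∑ i, s i • G i) := by
  classical
  let f : (Fin M → k) →ₗ[k] Po 4 k := ∑ i, (LinearMap.proj i).smulRight (G i)
  have hf : ∀ s, f s = ∑ i, s i • G i := by
    intro s
    simp [f, LinearMap.sum_apply]
  let Sub : Po 4 k → Submodule k (Fin M → k) := fun π =>
    Submodule.comap f ((Ideal.span {π}).restrictScalars k)
  have hSub : ∀ π s, s ∈ Sub π ↔ π ∣ ∑ i, s i • G i := by
    intro π s
    rw [← hf, ← Ideal.mem_span_singleton]
    rfl
  let F : Finset (Submodule k (Fin M → k)) :=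
    ((UniqueFactorizationMonoid.factors P).toFinset).image Sub
  have htop : (⊤ : Submodule k (Fin M → k)) ∉ F := by
    intro h
    obtain ⟨π, hπ, hπ2⟩ := Finset.mem_image.mp h
    have hirr : Irreducible π :=
      UniqueFactorizationMonoid.irreducible_of_factor π (Multiset.mem_toFinset.mp hπ)
    obtain ⟨i, hi⟩ := hG π hirr
    apply hi
    have h1 : (Pi.single i (1 : k) : Fin M → k) ∈ Sub π := by rw [hπ2]; trivial
    rw [hSub] at h1
    have h2 : ∑ j, (Pi.single i (1 : k) : Fin M → k) j • G j = G i := by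
      rw [Finset.sum_eq_single i]
      · rw [Pi.single_eq_same, one_smul]
      · intro j _ hj
        rw [Pi.single_eq_of_ne hj, zero_smul]
      · intro h; exact absurd (Finset.mem_univ i) h
    rwa [h2] at h1
  have hne := Subspace.biUnion_ne_univ_of_top_notMem htop
  obtain ⟨s, hs⟩ := (Set.ne_univ_iff_exists_notMem _).mp hne
  refine ⟨s, ?_⟩
  rw [UniqueFactorizationMonoid.isRelPrime_iff_no_prime_factors hP]
  intro d hd1 hd2 hd
  obtain ⟨q, hq1, hq2⟩ := UniqueFactorizationMonoid.exists_mem_factors_of_dvd hP hd.irreducible hd1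
  apply hs
  rw [Set.mem_iUnion₂]
  refine ⟨Sub q, Finset.mem_image_of_mem _ (Multiset.mem_toFinset.mpr hq1), ?_⟩
  show s ∈ Sub q
  rw [hSub]
  exact hq2.symm.dvd.trans hd2

theorem pf_LAV (hCTD : T_CTD) : T_LAV := by
  intro k _ _ M G y hG hy
  obtain ⟨i0, hi0⟩ := hy
  have hP0 : G i0 ≠ 0 := by
    intro h; rw [h, map_zero] at hi0; exact hi0 rfl
  obtain ⟨s, hs⟩ := exists_rel G hG (G i0) hP0
  by_cases hunit : IsUnit (G i0)
  · refine ⟨1, one_ne_zero, fun b _ t => ⟨i0, ?_⟩⟩
    exact (hunit.map (eval (fun j => y j + t * b j))).ne_zero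
  have hQ0 : (∑ i, s i • G i) ≠ 0 := by
    intro h
    rw [h] at hs
    exact hunit (isRelPrime_zero_right.mp hs)
  -- the generic line
  let K := FractionRing (Po 4 k)
  let Ω := AlgebraicClosure K
  let φ : Po 4 k →ₐ[k] Ω := IsScalarTower.toAlgHom k (Po 4 k) Ω
  have hφ : Function.Injective φ := by
    have h1 : Function.Injective (algebraMap (Po 4 k) K) := IsFractionRing.injective _ _
    have h2 : Function.Injective (algebraMap K Ω) := (algebraMap K Ω).injective
    have h3 : (φ : Po 4 k → Ω) = (algebraMap K Ω) ∘ (algebraMap (Po 4 k) K) := by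
      funext q
      exact IsScalarTower.algebraMap_apply (Po 4 k) K Ω q
    rw [h3]
    exact h2.comp h1
  have hcop : IsCoprime ((lnp y (G i0)).map (algebraMap (Po 4 k) K))
      ((lnp y (∑ i, s i • G i)).map (algebraMap (Po 4 k) K)) := by
    rw [Polynomial.isCoprime_iff_aeval_ne_zero_of_isAlgClosed K Ω]
    intro τ
    by_contra hcon
    push Not at hcon
    have hmap : ∀ q : Po 4 k, Polynomial.aeval τ ((lnp y q).map (algebraMap (Po 4 k) K)) =
        aeval (fun j => algebraMap k Ω (y j) + τ * φ (X j)) q := by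
      intro q
      rw [← eval₂_lnp y φ τ q, Polynomial.aeval_def, Polynomial.eval₂_map]
      have h3 : (algebraMap K Ω).comp (algebraMap (Po 4 k) K) = φ.toRingHom :=
        RingHom.ext fun q => (IsScalarTower.algebraMap_apply (Po 4 k) K Ω q).symm
      rw [h3]
    rw [hmap, hmap] at hcon
    have hτ : τ ≠ 0 := by
      intro h0
      apply hi0
      have h1 := hcon.1
      rw [h0] at h1
      have h2 : (fun j => algebraMap k Ω (y j) + 0 * φ (X j)) = fun j => algebraMap k Ω (y j) := by
        funext j
        rw [zero_mul, add_zero]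
      rw [h2] at h1
      have h3 : aeval (fun j => algebraMap k Ω (y j)) (G i0) = algebraMap k Ω (eval y (G i0)) :=
        (aeval_algebraMap_apply Ω y (G i0))
      rw [h3] at h1
      exact (map_eq_zero _).mp h1
    have h1 := hCTD k Ω (G i0) (∑ i, s i • G i) (fun j => algebraMap k Ω (y j) + τ * φ (X j))
      hP0 hQ0 hs hcon.1 hcon.2
    have h2 : Algebra.trdeg k (IntermediateField.adjoin k
        (Set.range (fun j => algebraMap k Ω (y j) + τ * φ (X j)) ∪ {τ})) ≤ 3 := by
      rw [lav_trdeg_union]
      calc _ ≤ (2 : Cardinal) + 1 := add_le_add h1 (lav_trdeg_simple τ)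
        _ = 3 := by norm_num
    have hmem : ∀ j, φ (X j) ∈ IntermediateField.adjoin k
        (Set.range (fun j => algebraMap k Ω (y j) + τ * φ (X j)) ∪ {τ}) := by
      intro j
      have e1 : φ (X j) = ((algebraMap k Ω (y j) + τ * φ (X j)) - algebraMap k Ω (y j)) / τ := by
        rw [add_sub_cancel_left, mul_div_cancel_left₀ _ hτ]
      have h4 : (algebraMap k Ω (y j) + τ * φ (X j)) ∈ IntermediateField.adjoin k
          (Set.range (fun j => algebraMap k Ω (y j) + τ * φ (X j)) ∪ {τ}) :=
        IntermediateField.subset_adjoin _ _ (Or.inl ⟨j, rfl⟩)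
      have h5 : τ ∈ IntermediateField.adjoin k
          (Set.range (fun j => algebraMap k Ω (y j) + τ * φ (X j)) ∪ {τ}) :=
        IntermediateField.subset_adjoin _ _ (Or.inr rfl)
      have h6 := div_mem (sub_mem h4 (IntermediateField.algebraMap_mem _ (y j))) h5
      rwa [← e1] at h6
    have hind : AlgebraicIndependent k (fun j : Fin 4 => (⟨φ (X j), hmem j⟩ :
        IntermediateField.adjoin k
          (Set.range (fun j => algebraMap k Ω (y j) + τ * φ (X j)) ∪ {τ}))) := by
      apply AlgebraicIndependent.of_comp (IntermediateField.val _)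
      have h5 : AlgebraicIndependent k (fun j : Fin 4 => φ (X j)) :=
        (MvPolynomial.algebraicIndependent_X (Fin 4) k).map' hφ
      exact h5
    have h7 := hind.cardinalMk_le_trdeg
    have h8 := h7.trans h2
    rw [Cardinal.mk_fin] at h8
    have h9 : ((4 : ℕ) : Cardinal.{0}) ≤ ((3 : ℕ) : Cardinal.{0}) := by exact_mod_cast h8
    have h10 : (4 : ℕ) ≤ 3 := by exact_mod_cast h9
    omega
  obtain ⟨a, b, hab⟩ := hcop
  obtain ⟨b1, hb1, hb1a⟩ := IsLocalization.integerNormalization_spec (nonZeroDivisors (Po 4 k)) a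
  obtain ⟨b2, hb2, hb2b⟩ := IsLocalization.integerNormalization_spec (nonZeroDivisors (Po 4 k)) b
  set A0 := IsLocalization.integerNormalization (nonZeroDivisors (Po 4 k)) a with hA0
  set B0 := IsLocalization.integerNormalization (nonZeroDivisors (Po 4 k)) b with hB0
  have hid : (Polynomial.C b2 * A0) * lnp y (G i0) + (Polynomial.C b1 * B0) *
      lnp y (∑ i, s i • G i) = Polynomial.C (b1 * b2) := by
    apply Polynomial.map_injective (algebraMap (Po 4 k) K) (IsFractionRing.injective _ _)
    rw [Polynomial.map_add, Polynomial.map_mul, Polynomial.map_mul, Polynomial.map_mul,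
      Polynomial.map_mul, Polynomial.map_C, Polynomial.map_C, Polynomial.map_C, hb1a, hb2b]
    have e1 : ∀ (c : Po 4 k) (q : Polynomial K), c • q =
        Polynomial.C (algebraMap (Po 4 k) K c) * q := by
      intro c q
      rw [← Polynomial.smul_eq_C_mul, algebraMap_smul]
    rw [e1, e1, map_mul, Polynomial.C_mul]
    linear_combination (Polynomial.C (algebraMap (Po 4 k) K b1) *
      Polynomial.C (algebraMap (Po 4 k) K b2)) * hab
  refine ⟨b1 * b2, mul_ne_zero (nonZeroDivisors.ne_zero hb1) (nonZeroDivisors.ne_zero hb2), ?_⟩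
  intro z hz t
  by_contra hcon
  push Not at hcon
  apply hz
  let ψ : Po 4 k →ₐ[k] k := aeval z
  have hψ : ∀ q, Polynomial.eval₂ ψ.toRingHom t (lnp y q) = eval (fun j => y j + t * z j) q := by
    intro q
    rw [eval₂_lnp]
    have h3 : (fun j => algebraMap k k (y j) + t * ψ (X j)) = fun j => y j + t * z j := by
      funext j
      show algebraMap k k (y j) + t * aeval z (X j) = _
      rw [aeval_X]
      rfl
    rw [h3]
    rfl
  have h1 := congrArg (Polynomial.eval₂ ψ.toRingHom t) hid
  rw [Polynomial.eval₂_add, Polynomial.eval₂_mul _ _ (q := lnp y (G i0)),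
    Polynomial.eval₂_mul _ _ (q := lnp y (∑ i, s i • G i)), hψ, hψ, hcon i0,
    Polynomial.eval₂_C] at h1
  have h2 : eval (fun j => y j + t * z j) (∑ i, s i • G i) = 0 := by
    rw [map_sum]
    apply Finset.sum_eq_zero
    intro i _
    rw [smul_eval, hcon i, mul_zero]
  rw [h2, mul_zero, mul_zero, add_zero] at h1
  exact h1.symm

end Pool.Agent.H50.TD
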