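import Pool.Agent.H8.TD.Targets

set_option autoImplicit false

open MvPolynomial
open Pool.Agent.H12.ZD (pmap v O Res DenseOrbit NoInv)
open Pool.Agent.H18.HIT
open Pool.Agent.H8.ZA (HFam Const NA sz)
open Pool.Agent.H8.TD

namespace Pool.Agent.H50.TD

/-- polynomials of degree at most one -/
theorem affine_form {N : ℕ} {k : Type} [Field k] (q : Po N k) (hq : q.totalDegree ≤ 1) :
    ∃ (a : k) (l : Fin N → k), q = C a + ∑ j, C (l j) * X j := by
  classical
  rw [q.as_sum]
  apply Finset.sum_induction _ (fun q : Po N k => ∃ (a : k) (l : Fin N → k),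
    q = C a + ∑ j, C (l j) * X j)
  · rintro x y ⟨a, l, hx⟩ ⟨b, m, hy⟩
    refine ⟨a + b, fun j => l j + m j, ?_⟩
    rw [hx, hy, C_add]
    have : ∑ j, (C (l j + m j) : Po N k) * X j = ∑ j, C (l j) * X j + ∑ j, C (m j) * X j := by
      rw [← Finset.sum_add_distrib]
      apply Finset.sum_congr rfl
      intro j _
      rw [C_add, add_mul]
    rw [this]
    ring
  · refine ⟨0, fun _ => 0, ?_⟩
    simp
  · intro m hm
    have h1 := (le_totalDegree hm).trans hq
    rcases Nat.lt_or_ge (m.sum fun _ e => e) 1 with h2 | h2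
    · have h3 : m = 0 := by
        have h4 : (m.sum fun _ e => e) = 0 := by omega
        rw [Finsupp.sum_fintype _ _ (fun _ => rfl)] at h4
        ext j
        exact (Finset.sum_eq_zero_iff.mp h4) j (Finset.mem_univ j)
      refine ⟨coeff m q, fun _ => 0, ?_⟩
      rw [h3]
      simp
    · obtain ⟨j, hj⟩ := (Finsupp.sum_eq_one_iff m).mp (le_antisymm h1 h2)
      refine ⟨0, fun i => if i = j then coeff m q else 0, ?_⟩
      rw [Finset.sum_eq_single j]
      · beta_reduce
        rw [if_pos rfl, C_0, zero_add, hj, C_mul_X_eq_monomial]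
      · intro i _ hi
        beta_reduce
        rw [if_neg hi, C_0, zero_mul]
      · intro h
        exact absurd (Finset.mem_univ j) h

theorem pf_PRC : T_PRC := by
  intro N k _ T G L L' θ Φ Δ R h1 h2 h3 hL hP
  have e1 : ∀ q : Po N k, aeval L (aeval L' q) = q := by
    intro q
    rw [← aeval_comp, h1]
    exact aeval_X_left_apply q
  have e2 : ∀ q : Po N k, aeval L' (aeval L q) = q := by
    intro q
    rw [← aeval_comp, h2]
    exact aeval_X_left_apply q
  have e3 : ∀ q : Po N k, aeval T (aeval L' q) = aeval L' (aeval G q) := by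
    intro q
    rw [← e2 (aeval T (aeval L' q)), ← aeval_comp T L, h3, aeval_comp, e1]
  have e4 : ∀ Ψ : Polynomial (Po N k), ev2 T (aeval L' θ)
      (Ψ.map (aeval L' : Po N k →ₐ[k] Po N k).toRingHom) = aeval L' (ev2 G θ Ψ) := by
    intro Ψ
    have h5 : aeval L' (ev2 G θ Ψ) = (aeval L' : Po N k →ₐ[k] Po N k).toRingHom
        (Ψ.eval₂ (aeval G : Po N k →ₐ[k] Po N k).toRingHom θ) := rfl
    rw [h5, Polynomial.hom_eval₂, ev2, Polynomial.eval₂_map]
    have h6 : (aeval T : Po N k →ₐ[k] Po N k).toRingHom.comp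
        (aeval L' : Po N k →ₐ[k] Po N k).toRingHom =
        (aeval L' : Po N k →ₐ[k] Po N k).toRingHom.comp
        (aeval G : Po N k →ₐ[k] Po N k).toRingHom := RingHom.ext fun q => e3 q
    rw [h6]
    rfl
  choose a l hal using fun i => affine_form (L i) (hL i)
  let R0 : Fin N → Polynomial (Po N k) := fun i => Polynomial.C (Δ * C (a i)) +
    ∑ j, Polynomial.C (C (l i j)) * R j
  have e5 : ∀ i, aeval G Δ * L i = ev2 G θ (R0 i) := by
    intro i
    have h5 : ev2 G θ (R0 i) = aeval G (Δ * C (a i)) + ∑ j, ev2 G θ (Polynomial.C (C (l i j)) * R j) := by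
      show ev2 G θ (Polynomial.C (Δ * C (a i)) + ∑ j, Polynomial.C (C (l i j)) * R j) = _
      rw [ev2_add, ev2_C]
      congr 1
      exact Polynomial.eval₂_finsetSum _ _ _ _
    rw [h5]
    conv_lhs => rw [hal i]
    rw [mul_add, map_mul, Finset.mul_sum]
    have h6 : ∀ c : k, aeval G (C c : Po N k) = (C c : Po N k) := fun c => by
      rw [aeval_C, algebraMap_eq]
    rw [h6]
    congr 1
    apply Finset.sum_congr rfl
    intro j _
    rw [ev2_mul, ev2_C, h6, ← hP.coord j]
    ring
  refine ⟨aeval L' θ, Φ.map (aeval L' : Po N k →ₐ[k] Po N k).toRingHom, aeval L' Δ,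
    fun i => (R0 i).map (aeval L' : Po N k →ₐ[k] Po N k).toRingHom, ⟨?_, ?_, ?_, ?_, ?_⟩, ?_, ?_⟩
  · exact hP.monic.map _
  · let E : Po N k ≃ₐ[k] Po N k := AlgEquiv.ofAlgHom (aeval L') (aeval L)
      (AlgHom.ext fun q => e2 q) (AlgHom.ext fun q => e1 q)
    have h5 := (MulEquiv.irreducible_iff (Polynomial.mapEquiv E.toRingEquiv)).mpr hP.irr
    exact h5
  · rw [e4, hP.root, map_zero]
  · intro h0
    apply hP.ne
    rw [← e1 Δ, h0, map_zero]
  · intro i
    have h5 : aeval L' (L i) = (X i : Po N k) := congrFun h2 i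
    show aeval T (aeval L' Δ) * X i = ev2 T (aeval L' θ) ((R0 i).map _)
    rw [e4, ← e5 i, e3, map_mul, h5]
  · exact hP.monic.natDegree_map _
  · intro x
    rw [eval_aeval, ← pmap_comp, h1, pmap_X]

end Pool.Agent.H50.TD
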